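import Pool.Agent.Helper813.DC.A1

/-!
Uncrossing inequality for loopless matroids and `mu ≤ r * beta` for round matroids: statements of
the jobs. `IsRk r`: rank function on the finite subsets of `α`; a matroid is `(r, E)`, `E` a finite
ground set.
-/

set_option autoImplicit false

namespace Pool.Agent.K7.H84.GG

open Finset DC813

/-- the flats of `(r, E)` -/
def fl {α : Type} [DecidableEq α] (r : Finset α → ℕ) (E : Finset α) : Finset (Finset α) :=
  E.powerset.filter (fun F => ∀ e ∈ E, e ∉ F → r F < r (insert e F))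

/-- contraction of `X` -/
def con {α : Type} [DecidableEq α] (r : Finset α → ℕ) (X : Finset α) : Finset α → ℕ :=
  fun A => r (A ∪ X) - r X

/-- principal truncation at `L` -/
def tr {α : Type} [DecidableEq α] (r : Finset α → ℕ) (L : Finset α) : Finset α → ℕ :=
  fun A => r A - (if r (A ∪ L) = r A then 1 else 0)

/-- closure in `E` -/
def cl {α : Type} [DecidableEq α] (r : Finset α → ℕ) (E A : Finset α) : Finset α :=
  E.filter (fun e => r (insert e A) = r A)

/-- loopless -/
def Lp {α : Type} [DecidableEq α] (r : Finset α → ℕ) (E : Finset α) : Prop :=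
  ∀ x ∈ E, 0 < r {x}

/-- submodular functions -/
def Sub {α : Type} [DecidableEq α] (f : Finset α → ℤ) : Prop :=
  ∀ A B : Finset α, f (A ∪ B) + f (A ∩ B) ≤ f A + f B

/-- hyperplanes avoiding `p` -/
def hy {α : Type} [DecidableEq α] (r : Finset α → ℕ) (E : Finset α) (p : α) :
    Finset (Finset α) :=
  (fl r E).filter (fun H => r H + 1 = r E ∧ p ∉ H)

/-- Moebius invariant of the contraction `E / F` -/
noncomputable def mc {α : Type} [DecidableEq α] (r : Finset α → ℕ) (E F : Finset α) : ℤ :=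
  mu (con r F) (E \ F)

/-- the uncrossing inequality -/
def GGs {α : Type} [DecidableEq α] (r : Finset α → ℕ) (E : Finset α) (p : α)
    (f : Finset α → ℤ) : Prop :=
  ∑ F ∈ (fl r E).filter (fun F => p ∈ F), beta r F * mc r E F * f (E \ F)
    ≤ ∑ H ∈ hy r E p, mu r H * f H

/-- the uncrossing inequality in rank `n` -/
def GGn (α : Type) [DecidableEq α] (n : ℕ) : Prop :=
  ∀ (r : Finset α → ℕ) (E : Finset α) (p : α) (f : Finset α → ℤ),
    IsRk r → r E = n → Lp r E → p ∈ E → Sub f → GGs r E p f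

/-- induction hypothesis -/
def IH (α : Type) [DecidableEq α] (n : ℕ) : Prop := ∀ m < n, GGn α m

/-- flats of corank 2 complementary to `L` -/
def T1 {α : Type} [DecidableEq α] (r : Finset α → ℕ) (E L : Finset α) : Finset (Finset α) :=
  (fl r E).filter (fun G => r G + 2 = r E ∧ r (G ∪ L) = r E)

/-- nonempty flats `X` disjoint from `L` with `r (X ∪ L) = r X + 1` -/
def XX {α : Type} [DecidableEq α] (r : Finset α → ℕ) (E L : Finset α) : Finset (Finset α) :=
  (fl r E).filter (fun X => X.Nonempty ∧ Disjoint X L ∧ r (X ∪ L) = r X + 1)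

/-- the coefficient produced by the induction -/
noncomputable def kappa {α : Type} [DecidableEq α] (r : Finset α → ℕ) (F L : Finset α) (p : α) :
    ℤ :=
  (((hy r L p).card : ℤ) - 1) * beta (tr r L) F
    + ∑ X ∈ XX r F L, beta (tr r L) (insert p X) * beta (con r X) (F \ X)

/-- the situation of the induction step -/
structure Ctx {α : Type} [DecidableEq α] (r : Finset α → ℕ) (E L : Finset α) (p : α) : Prop where
  hr : IsRk r
  lp : Lp r E
  hp : p ∈ E
  hL : L ∈ fl r E
  hL2 : r L = 2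
  hpL : p ∈ L

/-! ### small jobs -/

def StTR : Prop := ∀ (α : Type) [DecidableEq α] (r : Finset α → ℕ) (L : Finset α),
  IsRk r → 1 ≤ r L → IsRk (tr r L)

def StCON : Prop := ∀ (α : Type) [DecidableEq α] (r : Finset α → ℕ) (X : Finset α),
  IsRk r → IsRk (con r X)

/-- flats of a contraction; iterated contraction; looplessness of a contraction by a flat -/
def StFLC : Prop := ∀ (α : Type) [DecidableEq α] (r : Finset α → ℕ) (E X : Finset α),
  IsRk r → X ∈ fl r E →
    (∀ g : Finset α → ℤ, ∑ F' ∈ fl (con r X) (E \ X), g F'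
      = ∑ F ∈ (fl r E).filter (fun F => X ⊆ F), g (F \ X)) ∧
    (∀ F : Finset α, X ⊆ F → con (con r X) (F \ X) = con r F) ∧
    Lp (con r X) (E \ X)

/-- Weisner -/
def StWeis : Prop := ∀ (α : Type) [DecidableEq α] (r : Finset α → ℕ) (E : Finset α) (p : α),
  IsRk r → p ∈ E → 0 < r {p} → ∑ H ∈ hy r E p, mu r H = mu r E

/-- Weisner in a contraction -/
def StWeisC : Prop := ∀ (α : Type) [DecidableEq α] (r : Finset α → ℕ) (E F : Finset α) (y : α),
  IsRk r → F ∈ fl r E → y ∈ E → y ∉ F →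
    ∑ K ∈ (fl r E).filter (fun K => r K + 1 = r E ∧ F ⊆ K ∧ y ∉ K), mc r K F = mc r E F

def StMuNN : Prop := ∀ (α : Type) [DecidableEq α] (r : Finset α → ℕ) (E : Finset α),
  IsRk r → Lp r E → 0 ≤ mu r E

def StMcNN : Prop := ∀ (α : Type) [DecidableEq α] (r : Finset α → ℕ) (E F : Finset α),
  IsRk r → F ∈ fl r E → 0 ≤ mc r E F

/-- identity (1) -/
def StID1 : Prop := ∀ (α : Type) [DecidableEq α] (r : Finset α → ℕ) (E : Finset α) (p : α),
  IsRk r → Lp r E → p ∈ E →
    ∑ F ∈ (fl r E).filter (fun F => p ∈ F), beta r F * mc r E F = mu r E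

def StBco : Prop := ∀ (α : Type) [DecidableEq α] (r : Finset α → ℕ) (F : Finset α) (p : α),
  IsRk r → p ∈ F → F ≠ {p} → r (F.erase p) < r F → beta r F = 0

def StBp : Prop := ∀ (α : Type) [DecidableEq α] (r : Finset α → ℕ) (p : α),
  IsRk r → 0 < r {p} → beta r {p} = 1

/-- nonnegativity of beta from the uncrossing inequality with `f A = 1` for `A ≠ ∅`, `f ∅ = 0` -/
def StBNN : Prop := ∀ (α : Type) [DecidableEq α] (r : Finset α → ℕ) (E : Finset α) (p : α),
  IsRk r → Lp r E → p ∈ E → (∀ f, Sub f → GGs r E p f) → 0 ≤ beta r E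

/-! ### the steps -/

/-- Step 1 -/
def StSun : Prop := ∀ (α : Type) [DecidableEq α] (r : Finset α → ℕ) (E L : Finset α) (p : α)
    (f : Finset α → ℤ) (G : Finset α), Ctx r E L p → Sub f → G ∈ T1 r E L →
  f (G ∪ (E \ cl r E (insert p G)))
      + ((((hy r E p).filter (fun H => G ⊆ H)).card : ℤ) - 1) * f G
    ≤ ∑ H ∈ (hy r E p).filter (fun H => G ⊆ H), f H

/-- Step 2 -/
def StS2 : Prop := ∀ (α : Type) [DecidableEq α] (r : Finset α → ℕ) (E L : Finset α) (p : α),
  Ctx r E L p → ∀ H ∈ hy r E p,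
    ∑ G ∈ (T1 r E L).filter (fun G => G ⊆ H), mu r G = mu r H + mu (con (tr r L) {p}) H

def StS2b : Prop := ∀ (α : Type) [DecidableEq α] (r : Finset α → ℕ) (E L : Finset α) (p : α),
  Ctx r E L p → ∀ H ∈ hy r E p, ¬ Disjoint H L → mu (con (tr r L) {p}) H = 0

/-- Step 3 -/
def StS3 : Prop := ∀ (α : Type) [DecidableEq α] (r : Finset α → ℕ) (E L : Finset α) (p : α)
    (f : Finset α → ℤ), Ctx r E L p → IH α (r E) → Sub f →
  ∑ F ∈ (fl r E).filter (fun F => p ∈ F ∧ ¬ L ⊆ F), beta r F * mc r E F * f (E \ F)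
    ≤ ∑ G ∈ T1 r E L, mu r G * f (G ∪ (E \ cl r E (insert p G)))

/-- Step 4 -/
def StS4 : Prop := ∀ (α : Type) [DecidableEq α] (r : Finset α → ℕ) (E L : Finset α) (p : α)
    (G : Finset α), Ctx r E L p → G ∈ T1 r E L →
  ((hy r E p).filter (fun H => G ⊆ H)).card
    = (hy r L p).card + ((hy r E p).filter (fun H => G ⊆ H ∧ Disjoint H L)).card

/-- Step 5 -/
def StS5 : Prop := ∀ (α : Type) [DecidableEq α] (r : Finset α → ℕ) (E L : Finset α) (p : α)
    (f : Finset α → ℤ) (H : Finset α), Ctx r E L p → IH α (r E) → Sub f → H ∈ hy r E p →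
    Disjoint H L →
  mu (con (tr r L) {p}) H * f H
      + ∑ X ∈ (XX r E L).filter (fun X => X ⊆ H), beta (tr r L) (insert p X) * mc r H X * f (H \ X)
    ≤ ∑ G ∈ (T1 r E L).filter (fun G => G ⊆ H), mu r G * f G

/-- Step 6 -/
def StS6 : Prop := ∀ (α : Type) [DecidableEq α] (r : Finset α → ℕ) (E L : Finset α) (p : α)
    (f : Finset α → ℤ) (X : Finset α), Ctx r E L p → IH α (r E) → Sub f → X ∈ XX r E L →
  ∑ F ∈ (fl r E).filter (fun F => X ⊆ F ∧ L ⊆ F),
      beta (con r X) (F \ X) * mc r E F * f (E \ F)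
    ≤ ∑ H ∈ (hy r E p).filter (fun H => X ⊆ H), mc r H X * f (H \ X)

def StS6d : Prop := ∀ (α : Type) [DecidableEq α] (r : Finset α → ℕ) (E L : Finset α) (p : α)
    (X H : Finset α), Ctx r E L p → X ∈ XX r E L → H ∈ hy r E p → X ⊆ H → Disjoint H L

/-- Step 7 -/
def StS7 : Prop := ∀ (α : Type) [DecidableEq α] (r : Finset α → ℕ) (E L : Finset α) (p : α)
    (f : Finset α → ℤ), Ctx r E L p → IH α (r E) → Sub f →
  ∑ F ∈ (fl r E).filter (fun F => L ⊆ F), beta (tr r L) F * mc r E F * f (E \ F)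
    ≤ ∑ G ∈ T1 r E L, mu r G * f G

/-- signs -/
def StSgn : Prop := ∀ (α : Type) [DecidableEq α] (r : Finset α → ℕ) (E L : Finset α) (p : α),
  Ctx r E L p → IH α (r E) →
    1 ≤ (hy r L p).card ∧ ∀ X ∈ XX r E L, 0 ≤ beta (tr r L) (insert p X)

/-- the sum of the steps -/
def StKap : Prop := ∀ (α : Type) [DecidableEq α] (r : Finset α → ℕ) (E L : Finset α) (p : α)
    (f : Finset α → ℤ), Ctx r E L p → IH α (r E) → Sub f →
  ∑ F ∈ (fl r E).filter (fun F => p ∈ F ∧ ¬ L ⊆ F), beta r F * mc r E F * f (E \ F)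
      + ∑ F ∈ (fl r E).filter (fun F => L ⊆ F), kappa r F L p * mc r E F * f (E \ F)
    ≤ ∑ H ∈ hy r E p, mu r H * f H

/-- Step 8 -/
def StKB : Prop := ∀ (α : Type) [DecidableEq α] (r : Finset α → ℕ) (E L : Finset α) (p : α),
  Ctx r E L p → IH α (r E) → kappa r E L p = beta r E

/-- the uncrossing inequality -/
def StGG : Prop := ∀ (α : Type) [DecidableEq α] (n : ℕ), GGn α n

/-- round matroids -/
def StRound : Prop := ∀ (α : Type) [DecidableEq α] (r : Finset α → ℕ) (E : Finset α),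
  IsRk r → Lp r E → Round r E → 1 ≤ r E → mu r E ≤ (r E : ℤ) * beta r E

/-- criticality -/
def StCrit : Prop := ∀ (α : Type) [Fintype α] [DecidableEq α] (n : ℕ) (r : Finset α → ℕ),
  1 ≤ n → IsRk r → (∀ a b : α, r {a, b} = ({a, b} : Finset α).card) →
  Round r Finset.univ → r Finset.univ = n →
  (∑ X : Finset α, (-1 : Polynomial ℤ) ^ X.card * Polynomial.X ^ (r Finset.univ - r X))
        = ∏ i ∈ Finset.Icc 1 n, (Polynomial.X - Polynomial.C (i : ℤ)) → Crit r

end Pool.Agent.K7.H84.GG
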