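import Pool.Agent.K7.H5.GG_FIN
import Pool.Agent.K7.H62.GG_WEIS
import Pool.Agent.K7.H93.GG_KAP
import Pool.Agent.K7.H65.GG_KB
import Pool.Agent.K7.H55.GG_MUNN
import Pool.Agent.K7.H55.GG_TR
import Pool.Agent.K7.H16.GG_S3
import Pool.Agent.K7.H13.GG_S6
import Pool.Agent.K7.H60.GG_SUN
import Pool.Agent.K7.H94.GG_WEISC
import Pool.Agent.K7.H95.GG_BCO
import Pool.Agent.K7.H79.GG_CON
import Pool.Agent.K7.H63.GG_ID1
import Pool.Agent.K7.H72.GG_S2
import Pool.Agent.K7.H98.GG_S4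
import Pool.Agent.K7.H14.GG_S5
import Pool.Agent.K7.H32.GG_S7
import Pool.Agent.K7.H23.GG_GG

set_option autoImplicit false

namespace Pool.Agent.K7.H84.GG

theorem weis : StWeis := Pool.Agent.K7.H62.GGWEIS.t
theorem con' : StCON := Pool.Agent.K7.H79.GGCON.t
theorem flc : StFLC := Pool.Agent.K7.H79.GGCON.flc
theorem id1 : StID1 := Pool.Agent.K7.H63.GGID1.t
theorem tr' : StTR := Pool.Agent.K7.H55.GGTR.t
theorem munn : StMuNN := Pool.Agent.K7.H55.GGMUNN.t weis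
theorem weisC : StWeisC := Pool.Agent.K7.H94.GGWEISC.weisC weis con' flc
theorem mcnn : StMcNN := Pool.Agent.K7.H94.GGWEISC.mcNN con' flc munn
theorem bco : StBco := Pool.Agent.K7.H95.GGBCO.tBco
theorem bp : StBp := Pool.Agent.K7.H95.GGBCO.tBp
theorem bnn : StBNN := Pool.Agent.K7.H95.GGBCO.tBNN id1 weis
theorem sun : StSun := Pool.Agent.K7.H60.GGSUN.t
theorem s2 : StS2 := Pool.Agent.K7.H72.GGS2.t weis tr'
theorem s2b : StS2b := Pool.Agent.K7.H72.GGS2.tb tr'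
theorem s3 : StS3 := Pool.Agent.K7.H16.GGS3.t weisC
theorem s4 : StS4 := Pool.Agent.K7.H98.GGS4.t
theorem s5 : StS5 := Pool.Agent.K7.H14.GGS5.t tr' bco bp
theorem s6 : StS6 := Pool.Agent.K7.H13.GGS6.s6 con' flc
theorem s6d : StS6d := Pool.Agent.K7.H13.GGS6.s6d
theorem s7 : StS7 := Pool.Agent.K7.H32.GGS7.t tr'
theorem sgn : StSgn := Pool.Agent.K7.H32.GGS7.t2 tr' bnn
theorem kap : StKap := Pool.Agent.K7.H93.GGKAP.t sun s2 s2b s3 s4 s5 s6 s6d s7 sgn munn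
theorem kb : StKB := Pool.Agent.K7.H65.GGKB.t kap weis id1
/-- the uncrossing inequality -/
theorem gg : StGG := Pool.Agent.K7.H23.GGGG.t kap kb

end Pool.Agent.K7.H84.GG
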