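import Pool.Agent.K7.H84.GG.Stm

set_option autoImplicit false

namespace Pool.Agent.K7.H84.GG

open Finset DC813

theorem sub_rk {α : Type} [DecidableEq α] {r : Finset α → ℕ} (hr : IsRk r) :
    Sub (fun A => (r A : ℤ)) := by
  intro A B
  have := hr.submod A B
  push_cast
  exact_mod_cast this

theorem round_le (hGG : StGG) (hID : StID1) (hW : StWeis) : StRound := by
  intro α _ r E hr hlp hround h1
  have hne : E.Nonempty := by
    by_contra h
    rw [Finset.not_nonempty_iff_eq_empty] at h
    rw [h, hr.empty] at h1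
    omega
  obtain ⟨p, hp⟩ := hne
  have hfull : ∀ f, Sub f → GGs r E p f := fun f hf => hGG α (r E) r E p f hr rfl hlp hp hf
  have h2 := hfull _ (sub_rk hr)
  unfold GGs at h2
  -- right side
  have h3 : ∑ H ∈ hy r E p, mu r H * ((r H : ℕ) : ℤ) = ((r E : ℤ) - 1) * mu r E := by
    rw [← hW α r E p hr hp (hlp p hp), Finset.mul_sum]
    refine Finset.sum_congr rfl fun H hH => ?_
    have h4 : r H + 1 = r E := (Finset.mem_filter.1 hH).2.1
    have h5 : (r H : ℤ) = (r E : ℤ) - 1 := by
      rw [← h4]; push_cast; ring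
    rw [h5]; ring
  -- left side
  have hE : E ∈ (fl r E).filter (fun F => p ∈ F) := by
    rw [Finset.mem_filter]
    refine ⟨?_, hp⟩
    unfold fl
    rw [Finset.mem_filter]
    exact ⟨Finset.mem_powerset.2 (Finset.Subset.refl _), fun e he hn => absurd he hn⟩
  have h6 : ∑ F ∈ (fl r E).filter (fun F => p ∈ F), beta r F * mc r E F * ((r (E \ F) : ℕ) : ℤ)
      = (r E : ℤ) * (mu r E - beta r E * mc r E E) := by
    rw [← hID α r E p hr hlp hp]
    rw [← Finset.add_sum_erase _ _ hE, ← Finset.add_sum_erase _ (fun F => beta r F * mc r E F) hE]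
    have h7 : ((r (E \ E) : ℕ) : ℤ) = 0 := by
      rw [Finset.sdiff_self, hr.empty]; rfl
    rw [h7, mul_zero, zero_add, add_sub_cancel_left, Finset.mul_sum]
    refine Finset.sum_congr rfl fun F hF => ?_
    obtain ⟨hFE, hF2⟩ := Finset.mem_erase.1 hF
    obtain ⟨hF3, hF4⟩ := Finset.mem_filter.1 hF2
    unfold fl at hF3
    obtain ⟨hF5, hF6⟩ := Finset.mem_filter.1 hF3
    have hF7 := Finset.mem_powerset.1 hF5
    have h8 : r (E \ F) = r E := by
      rcases hround F (E \ F) (Finset.union_sdiff_of_subset hF7) with h | h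
      · exfalso
        obtain ⟨e, heE, heF⟩ : ∃ e ∈ E, e ∉ F := by
          by_contra hc
          push Not at hc
          exact hFE (Finset.Subset.antisymm hF7 hc)
        have h9 := hF6 e heE heF
        have h10 : r (insert e F) ≤ r E :=
          hr.mono _ _ (Finset.insert_subset heE hF7)
        omega
      · exact h
    rw [h8]; ring
  have h11 : mc r E E = 1 := by
    unfold mc mu con
    rw [Finset.sdiff_self]
    simp [Finset.filter_singleton]
  simp only at h2
  rw [h3, h6, h11] at h2
  linarith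

end Pool.Agent.K7.H84.GG
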